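import Pool.Agent.Y325.BC.Gr

/-! BC-BD: the derivative along the circles, up to the boundary circles. -/

set_option autoImplicit false

open MeasureTheory Metric Set Filter Topology
open scoped ContDiff ENNReal NNReal Interval

namespace Pool.Agent.Y325.BC

open Pool.Agent.Y305.BC

theorem hasDerivAt_pol (r x : ℝ) : HasDerivAt (fun x : ℝ => pol r x) (av r x) x := by
  have h := (hasDerivAt_ex x).const_mul (r : ℂ)
  have e : av r x = (r : ℂ) * (2 * Real.pi * Complex.I * ex x) := by
    unfold av pol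
    ring
  rw [e]
  exact h

theorem continuous_pol2 : Continuous fun q : ℝ × ℝ => pol q.1 q.2 := by
  unfold pol
  exact (Complex.continuous_ofReal.comp continuous_fst).mul (continuous_ex.comp continuous_snd)

theorem continuous_av2 : Continuous fun q : ℝ × ℝ => av q.1 q.2 := by
  unfold av
  exact continuous_const.mul continuous_pol2

theorem bd_int {a b : ℝ} {F F' : ℂ → ℂ} (ha : 0 ≤ a) (hF : Nice a b F F') {r : ℝ}
    (h1 : a < r) (h2 : r < b) (x : ℝ) :
    HasDerivAt (fun x : ℝ => F (pol r x)) (F' (pol r x) * av r x) x := by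
  have hn : ‖pol r x‖ = r := norm_pol (ha.trans h1.le) x
  have hd := hF.der (pol r x) (by rw [hn]; exact h1) (by rw [hn]; exact h2)
  exact hd.comp x (hasDerivAt_pol r x)

/-- the integrand -/
noncomputable def itg (F' : ℂ → ℂ) (r t : ℝ) : ℂ := F' (pol r t) * av r t

theorem cont_itg {a b : ℝ} {F F' : ℂ → ℂ} (ha : 0 ≤ a) (hF : Nice a b F F') :
    ContinuousOn (fun q : ℝ × ℝ => itg F' q.1 q.2) {q | q.1 ∈ Icc a b} := by
  unfold itg
  refine ContinuousOn.mul ?_ continuous_av2.continuousOn
  refine hF.cont'.comp continuous_pol2.continuousOn fun q hq => ?_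
  have hn : ‖pol q.1 q.2‖ = q.1 := norm_pol (ha.trans hq.1) _
  show a ≤ ‖pol q.1 q.2‖ ∧ ‖pol q.1 q.2‖ ≤ b
  rw [hn]
  exact hq

theorem cont_itg1 {a b : ℝ} {F F' : ℂ → ℂ} (ha : 0 ≤ a) (hF : Nice a b F F') {r : ℝ}
    (hr : r ∈ Icc a b) : Continuous (itg F' r) := by
  have h := (cont_itg ha hF).comp (f := fun t : ℝ => ((r, t) : ℝ × ℝ)) (s := univ)
    (by fun_prop) (fun t _ => hr)
  exact continuousOn_univ.1 h

theorem ftc {a b : ℝ} {F F' : ℂ → ℂ} (ha : 0 ≤ a) (hab : a < b) (hF : Nice a b F F') {r : ℝ}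
    (hr : r ∈ Icc a b) (x y : ℝ) :
    F (pol r y) - F (pol r x) = ∫ t in x..y, itg F' r t := by
  -- both sides are continuous in `r ∈ [a,b]`, equality in the open interval
  have c1 : ∀ x : ℝ, ContinuousOn (fun r : ℝ => F (pol r x)) (Icc a b) := by
    intro x
    have hp : Continuous fun r : ℝ => pol r x := by
      have := continuous_pol2.comp (f := fun r : ℝ => ((r, x) : ℝ × ℝ)) (by fun_prop)
      exact this
    refine hF.cont.comp hp.continuousOn fun s hs => ?_
    have hn : ‖pol s x‖ = s := norm_pol (ha.trans hs.1) _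
    show a ≤ ‖pol s x‖ ∧ ‖pol s x‖ ≤ b
    rw [hn]
    exact hs
  obtain ⟨C, hC⟩ := (IsCompact.prod (isCompact_Icc (a := a) (b := b))
    (isCompact_uIcc (a := x) (b := y))).exists_bound_of_continuousOn
    ((cont_itg ha hF).mono fun q hq => hq.1)
  have c2 : ContinuousOn (fun r : ℝ => ∫ t in x..y, itg F' r t) (Icc a b) := by
    intro r₀ hr₀
    refine intervalIntegral.continuousWithinAt_of_dominated_interval (bound := fun _ => C)
      ?_ ?_ ?_ ?_
    · filter_upwards [self_mem_nhdsWithin] with s hs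
      exact (cont_itg1 ha hF hs).aestronglyMeasurable
    · filter_upwards [self_mem_nhdsWithin] with s hs
      refine Eventually.of_forall fun t ht => ?_
      exact hC (s, t) ⟨hs, uIoc_subset_uIcc ht⟩
    · exact intervalIntegrable_const
    · refine Eventually.of_forall fun t _ => ?_
      have h := (cont_itg ha hF).comp (f := fun s : ℝ => ((s, t) : ℝ × ℝ)) (s := Icc a b)
        (by fun_prop) (fun s hs => hs)
      exact h r₀ hr₀
  have c3 := ((c1 y).sub (c1 x)).sub c2
  have e : ∀ s ∈ Ioo a b, F (pol s y) - F (pol s x) - ∫ t in x..y, itg F' s t = 0 := by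
    intro s hs
    rw [sub_eq_zero]
    symm
    refine intervalIntegral.integral_eq_sub_of_hasDerivAt
      (fun t _ => bd_int ha hF hs.1 hs.2 t) ?_
    exact (cont_itg1 ha hF ⟨hs.1.le, hs.2.le⟩).intervalIntegrable _ _
  have hcl : closure (Ioo a b) = Icc a b := closure_Ioo hab.ne
  have h5 : EqOn (fun s => F (pol s y) - F (pol s x) - ∫ t in x..y, itg F' s t) (fun _ => 0)
      (closure (Ioo a b)) := by
    refine Set.EqOn.of_subset_closure (s := Ioo a b) e ?_ continuousOn_const subset_closure le_rfl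
    rw [hcl]
    exact c3
  rw [hcl] at h5
  exact sub_eq_zero.1 (h5 hr)

theorem bd : S_BD := by
  intro a b F F' ha hab hF r hr x
  have hc := cont_itg1 ha hF hr
  have h1 : HasDerivAt (fun y : ℝ => ∫ t in x..y, itg F' r t) (itg F' r x) x :=
    intervalIntegral.integral_hasDerivAt_right (hc.intervalIntegrable _ _)
      hc.stronglyMeasurable.stronglyMeasurableAtFilter hc.continuousAt
  have h2 : (fun y : ℝ => F (pol r y)) = fun y => F (pol r x) + ∫ t in x..y, itg F' r t := by
    funext y
    rw [← ftc ha hab hF hr x y]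
    ring
  rw [h2]
  exact h1.const_add _

end Pool.Agent.Y325.BC
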