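import Pool.Agent.Y325.BC.Bd

/-! BC-CAL: the graph maps are calibrated. -/

set_option autoImplicit false

open MeasureTheory Metric Set Filter Topology
open scoped ContDiff ENNReal NNReal Interval

namespace Pool.Agent.Y325.BC

open Pool.Agent.Y305.BC

theorem norm_pt_le (z w : ℂ) : ‖pt z w‖ ≤ ‖z‖ + ‖w‖ := by
  have h := WithLp.prod_norm_sq_eq_of_L2 (pt z w)
  have h1 : (pt z w).fst = z := rfl
  have h2 : (pt z w).snd = w := rfl
  rw [h1, h2] at h
  refine le_of_sq_le_sq ?_ (by positivity)
  rw [h]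
  nlinarith [mul_nonneg (norm_nonneg z) (norm_nonneg w)]

theorem continuous_pt : Continuous fun q : ℂ × ℂ => pt q.1 q.2 := by
  have h : Continuous (WithLp.prodContinuousLinearEquiv 2 ℝ ℂ ℂ).symm :=
    (WithLp.prodContinuousLinearEquiv 2 ℝ ℂ ℂ).symm.continuous
  exact h

theorem measurableSet_rect (a b : ℝ) : MeasurableSet (rect a b) := by
  have ho : IsOpen (rect a b) := by
    refine ((isOpen_lt continuous_const Complex.continuous_re).inter
      (isOpen_lt Complex.continuous_re continuous_const)).inter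
      ((isOpen_lt continuous_const Complex.continuous_im).inter
      (isOpen_lt Complex.continuous_im continuous_const))
  exact ho.measurableSet

theorem volume_rect (a b : ℝ) : volume (rect a b) ≠ ⊤ := by
  have h : Bornology.IsBounded (rect a b) := by
    refine (isBounded_closedBall (x := (0 : ℂ)) (r := max |a| |b| + 1)).subset fun p hp => ?_
    rw [mem_closedBall_zero_iff]
    refine (Complex.norm_le_abs_re_add_abs_im p).trans (add_le_add ?_ ?_)
    · exact abs_le_max_abs_abs hp.1.1.le hp.1.2.le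
    · rw [abs_of_pos hp.2.1]
      exact hp.2.2.le
  exact h.measure_lt_top.ne

theorem av_eq (r x : ℝ) : av r x = ((2 * Real.pi * r : ℝ) : ℂ) * Complex.I * ex x := by
  unfold av pol
  push_cast
  ring

theorem tv_av (F' : ℂ → ℂ) (z : ℂ) (r x : ℝ) :
    tv F' z (av r x) = (2 * Real.pi * r : ℝ) • (Complex.I • tv F' z (ex x)) := by
  rw [av_eq]
  unfold tv pt
  rw [← WithLp.toLp_smul, ← WithLp.toLp_smul]
  congr 1
  ext1
  · show _ = ((2 * Real.pi * r : ℝ) : ℝ) • (Complex.I • ex x)
    rw [Complex.real_smul, smul_eq_mul]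
    ring
  · show _ = ((2 * Real.pi * r : ℝ) : ℝ) • (Complex.I • (F' z * ex x))
    rw [Complex.real_smul, smul_eq_mul]
    ring

theorem norm_kah_le : ‖kah‖ ≤ 1 := LinearMap.mkContinuous₂_norm_le _ zero_le_one _

theorem cal : S_CAL := by
  intro hgr a b F F' ha hab hF θ hθ hθ1
  obtain ⟨⟨K, hK⟩, hd⟩ := hgr a b F F' ha hab hF
  obtain ⟨L, hL⟩ := (isCompact_ann a b).exists_bound_of_continuousOn hF.cont'
  have hb0 : 0 < b := lt_of_le_of_lt ha hab
  have hL0 : 0 ≤ L := by
    have := hL (b : ℂ) (by simp [abs_of_pos hb0, hab.le])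
    exact (norm_nonneg _).trans this
  have hpi := Real.pi_pos
  have hmem : ∀ p ∈ rect a b, pol p.re p.im ∈ {z : ℂ | a ≤ ‖z‖ ∧ ‖z‖ ≤ b} :=
    fun p hp => ph_mem ha (os_sub a b hp.1)
  -- the two vectors
  have cF : ContinuousOn (fun p : ℂ => F' (pol p.re p.im)) (rect a b) :=
    hF.cont'.comp continuous_ph.continuousOn hmem
  have cV : ContinuousOn (fun p : ℂ => tv F' (pol p.re p.im) (ex p.im)) (rect a b) := by
    have c1 : ContinuousOn (fun p : ℂ => ((ex p.im, F' (pol p.re p.im) * ex p.im) : ℂ × ℂ))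
        (rect a b) := by
      have ce : ContinuousOn (fun p : ℂ => ex p.im) (rect a b) :=
        (continuous_ex.comp Complex.continuous_im).continuousOn
      exact ce.prodMk (cF.mul ce)
    exact continuous_pt.comp_continuousOn c1
  have cW : ContinuousOn (fun p : ℂ => tv F' (pol p.re p.im) (av p.re p.im)) (rect a b) := by
    have c1 : ContinuousOn (fun p : ℂ =>
        ((av p.re p.im, F' (pol p.re p.im) * av p.re p.im) : ℂ × ℂ)) (rect a b) := by
      have ce : ContinuousOn (fun p : ℂ => av p.re p.im) (rect a b) := by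
        have := continuous_av2.comp (f := fun p : ℂ => ((p.re, p.im) : ℝ × ℝ))
          (Complex.continuous_re.prodMk Complex.continuous_im)
        exact this.continuousOn
      exact ce.prodMk (cF.mul ce)
    exact continuous_pt.comp_continuousOn c1
  have nV : ∀ p ∈ rect a b, ‖tv F' (pol p.re p.im) (ex p.im)‖ ≤ 1 + L := by
    intro p hp
    refine (norm_pt_le _ _).trans ?_
    rw [norm_mul, norm_ex, mul_one]
    exact add_le_add le_rfl (hL _ (hmem p hp))
  have nW : ∀ p ∈ rect a b, ‖tv F' (pol p.re p.im) (av p.re p.im)‖ ≤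
      2 * Real.pi * b * (1 + L) := by
    intro p hp
    have hr0 : 0 ≤ p.re := ha.trans hp.1.1.le
    rw [tv_av, norm_smul, norm_smul, Complex.norm_I, one_mul, Real.norm_of_nonneg (by positivity)]
    refine mul_le_mul ?_ (nV p hp) (norm_nonneg _) (by positivity)
    exact mul_le_mul_of_nonneg_left hp.1.2.le (by positivity)
  have hint : ∀ Θ : F2, Continuous Θ → (∀ x, ‖Θ x‖ ≤ 1) →
      IntegrableOn (fun p => Θ (gr a b F p) (tv F' (pol p.re p.im) (ex p.im))
        (tv F' (pol p.re p.im) (av p.re p.im))) (rect a b) := by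
    intro Θ hΘ hΘ1
    have : IsFiniteMeasure (volume.restrict (rect a b)) :=
      ⟨by rw [Measure.restrict_apply_univ]; exact lt_top_iff_ne_top.2 (volume_rect a b)⟩
    refine Integrable.of_bound (C := (1 + L) * (2 * Real.pi * b * (1 + L))) ?_ ?_
    · have c1 : ContinuousOn (fun p => Θ (gr a b F p)) (rect a b) :=
        (hΘ.comp hK.continuous).continuousOn
      exact ((c1.clm_apply cV).clm_apply cW).aestronglyMeasurable (measurableSet_rect a b)
    · refine (ae_restrict_iff' (measurableSet_rect a b)).2 (Eventually.of_forall fun p hp => ?_)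
      refine (ContinuousLinearMap.le_opNorm _ _).trans ?_
      refine mul_le_mul ?_ (nW p hp) (norm_nonneg _) (by positivity)
      refine (ContinuousLinearMap.le_opNorm _ _).trans ?_
      calc ‖Θ (gr a b F p)‖ * _ ≤ 1 * (1 + L) :=
            mul_le_mul (hΘ1 _) (nV p hp) (norm_nonneg _) zero_le_one
        _ = 1 + L := one_mul _
  have hpush : ∀ Θ : F2, push (gr a b F) (rect a b) Θ =
      ∫ p in rect a b, Θ (gr a b F p) (tv F' (pol p.re p.im) (ex p.im))
        (tv F' (pol p.re p.im) (av p.re p.im)) := by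
    intro Θ
    unfold push
    refine setIntegral_congr_fun (measurableSet_rect a b) fun p hp => ?_
    obtain ⟨e1, e2⟩ := hd p hp
    show Θ (gr a b F p) (fderiv ℝ (gr a b F) p 1) (fderiv ℝ (gr a b F) p Complex.I) = _
    rw [e1, e2]
  rw [hpush, hpush]
  refine setIntegral_mono_on (hint θ hθ.1.continuous hθ1)
    (hint (fun _ => kah) continuous_const (fun _ => norm_kah_le)) (measurableSet_rect a b) ?_
  intro p hp
  have hr0 : 0 ≤ p.re := ha.trans hp.1.1.le
  rw [tv_av, kah_apply]
  set v := tv F' (pol p.re p.im) (ex p.im)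
  rw [inner_smul_right, real_inner_self_eq_norm_sq, norm_smul, Complex.norm_I, one_mul,
    ContinuousLinearMap.map_smul, smul_eq_mul]
  refine mul_le_mul_of_nonneg_left ?_ (by positivity)
  have h1 : θ (gr a b F p) v (Complex.I • v) ≤ ‖θ (gr a b F p) v‖ * ‖Complex.I • v‖ :=
    (le_abs_self _).trans
      ((Real.norm_eq_abs _).symm.le.trans (ContinuousLinearMap.le_opNorm _ _))
  have h2 : ‖θ (gr a b F p) v‖ ≤ 1 * ‖v‖ :=
    (ContinuousLinearMap.le_opNorm _ _).trans
      (mul_le_mul_of_nonneg_right (hθ1 _) (norm_nonneg _))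
  rw [norm_smul, Complex.norm_I, one_mul] at h1
  calc θ (gr a b F p) v (Complex.I • v) ≤ ‖θ (gr a b F p) v‖ * ‖v‖ := h1
    _ ≤ (1 * ‖v‖) * ‖v‖ := mul_le_mul_of_nonneg_right h2 (norm_nonneg _)
    _ = ‖v‖ ^ 2 := by ring

end Pool.Agent.Y325.BC
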