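import Pool.Agent.Y305.BC.Stm

/-! BC-GR: the graph maps in polar coordinates are Lipschitz. -/

set_option autoImplicit false

open MeasureTheory Metric Set Filter Topology
open scoped ContDiff ENNReal NNReal

namespace Pool.Agent.Y325.BC

open Pool.Agent.Y305.BC

theorem norm_ex (x : ℝ) : ‖ex x‖ = 1 := by
  unfold ex
  rw [show (2 * Real.pi * x * Complex.I : ℂ) = ((2 * Real.pi * x : ℝ) : ℂ) * Complex.I by
    push_cast; ring]
  exact Complex.norm_exp_ofReal_mul_I _

theorem hasDerivAt_ex (x : ℝ) : HasDerivAt ex (2 * Real.pi * Complex.I * ex x) x := by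
  have h1 : HasDerivAt (fun y : ℝ => (2 * Real.pi * y * Complex.I : ℂ))
      (2 * Real.pi * Complex.I) x := by
    have h0 : HasDerivAt (fun y : ℝ => (y : ℂ)) 1 x := Complex.ofRealCLM.hasDerivAt
    have h2 := (h0.const_mul (2 * Real.pi : ℂ)).mul_const Complex.I
    simpa using h2
  have h3 := h1.cexp
  unfold ex
  convert h3 using 1
  ring

theorem continuous_ex : Continuous ex :=
  continuous_iff_continuousAt.2 fun x => (hasDerivAt_ex x).continuousAt

theorem norm_pol {r : ℝ} (hr : 0 ≤ r) (x : ℝ) : ‖pol r x‖ = r := by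
  unfold pol
  rw [norm_mul, norm_ex, mul_one, Complex.norm_real, Real.norm_of_nonneg hr]

/-- polar coordinates as a function of `p = r + i x` -/
noncomputable def ph (p : ℂ) : ℂ := pol p.re p.im

/-- the derivative of `ph` -/
noncomputable def dph (p : ℂ) : ℂ →L[ℝ] ℂ :=
  Complex.reCLM.smulRight (ex p.im) + Complex.imCLM.smulRight (av p.re p.im)

theorem dph_apply (p h : ℂ) : dph p h = h.re • ex p.im + h.im • av p.re p.im := rfl

theorem hasFDerivAt_ph (p : ℂ) : HasFDerivAt ph (dph p) p := by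
  have h1 : HasFDerivAt (fun q : ℂ => (q.re : ℂ)) (Complex.ofRealCLM.comp Complex.reCLM) p :=
    (Complex.ofRealCLM.comp Complex.reCLM).hasFDerivAt
  have h2 : HasFDerivAt (fun q : ℂ => ex q.im)
      (((1 : ℝ →L[ℝ] ℝ).smulRight (2 * Real.pi * Complex.I * ex p.im : ℂ)).comp Complex.imCLM) p :=
    HasFDerivAt.comp p (hasDerivAt_ex p.im).hasFDerivAt Complex.imCLM.hasFDerivAt
  have h3 := h1.mul h2
  have e1 : ph = fun q : ℂ => (q.re : ℂ) * ex q.im := rfl
  rw [e1]
  refine h3.congr_fderiv ?_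
  ext h
  simp [dph, av, pol]
  ring

theorem continuous_ph : Continuous ph :=
  continuous_iff_continuousAt.2 fun x => (hasFDerivAt_ph x).continuousAt

theorem norm_dph_le {b : ℝ} (p : ℂ) (h0 : 0 ≤ p.re) (hb : p.re ≤ b) :
    ‖dph p‖ ≤ 1 + 2 * Real.pi * b := by
  have hb0 : 0 ≤ b := h0.trans hb
  have hpi := Real.pi_pos
  refine ContinuousLinearMap.opNorm_le_bound _ (by positivity) fun h => ?_
  rw [dph_apply]
  have h1 : ‖h.re • ex p.im‖ ≤ ‖h‖ := by
    rw [norm_smul, norm_ex, mul_one]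
    exact Complex.abs_re_le_norm h
  have h2 : ‖h.im • av p.re p.im‖ ≤ ‖h‖ * (2 * Real.pi * b) := by
    rw [norm_smul]
    refine mul_le_mul (Complex.abs_im_le_norm h) ?_ (norm_nonneg _) (norm_nonneg _)
    unfold av
    rw [norm_mul, norm_pol h0]
    have : ‖(2 * Real.pi * Complex.I : ℂ)‖ = 2 * Real.pi := by
      rw [norm_mul, Complex.norm_I, mul_one, norm_mul, Complex.norm_real,
        Real.norm_of_nonneg hpi.le]
      simp
    rw [this]
    exact mul_le_mul_of_nonneg_left hb (by positivity)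
  calc ‖h.re • ex p.im + h.im • av p.re p.im‖ ≤ ‖h‖ + ‖h‖ * (2 * Real.pi * b) :=
        (norm_add_le _ _).trans (add_le_add h1 h2)
    _ = (1 + 2 * Real.pi * b) * ‖h‖ := by ring

/-- the clamp -/
noncomputable def cl (a b : ℝ) (p : ℂ) : ℂ := ⟨max a (min b p.re), p.im⟩

theorem cl_lip (a b : ℝ) : LipschitzWith 1 (cl a b) := by
  refine LipschitzWith.of_dist_le_mul fun p q => ?_
  rw [NNReal.coe_one, one_mul, Complex.dist_eq_re_im, Complex.dist_eq_re_im]
  refine Real.sqrt_le_sqrt ?_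
  have h1 : |max a (min b p.re) - max a (min b q.re)| ≤ |p.re - q.re| := by
    refine (abs_max_sub_max_le_max _ _ _ _).trans ?_
    refine max_le (by simp) ?_
    refine (abs_min_sub_min_le_max _ _ _ _).trans ?_
    refine max_le (by simp) le_rfl
  have h2 := sq_le_sq.2 (h1.trans_eq (abs_abs _).symm |>.trans_eq (abs_abs _))
  show (max a (min b p.re) - max a (min b q.re)) ^ 2 + (p.im - q.im) ^ 2 ≤ _
  have h3 : (max a (min b p.re) - max a (min b q.re)) ^ 2 ≤ (p.re - q.re) ^ 2 := sq_le_sq.2 h1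
  linarith

/-- the closed strip -/
def cs (a b : ℝ) : Set ℂ := {p | a ≤ p.re ∧ p.re ≤ b}

/-- the open strip -/
def os (a b : ℝ) : Set ℂ := {p | a < p.re ∧ p.re < b}

theorem closure_os {a b : ℝ} (hab : a < b) : closure (os a b) = cs a b := by
  have h1 : os a b = Complex.re ⁻¹' (Ioo a b) := rfl
  have h2 : cs a b = Complex.re ⁻¹' (Icc a b) := rfl
  rw [h1, h2, Complex.closure_preimage_re, closure_Ioo hab.ne]

theorem convex_os (a b : ℝ) : Convex ℝ (os a b) := by
  have h1 : os a b = Complex.reCLM ⁻¹' (Ioo a b) := rfl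
  rw [h1]
  exact (convex_Ioo a b).is_linear_preimage Complex.reCLM.toLinearMap.isLinear

theorem lip_cs {a b K : ℝ} (hab : a < b) (g : ℂ → ℂ) (g' : ℂ → ℂ →L[ℝ] ℂ)
    (hc : ContinuousOn g (cs a b)) (hd : ∀ p ∈ os a b, HasFDerivAt g (g' p) p)
    (hK : ∀ p ∈ os a b, ‖g' p‖ ≤ K) (hK0 : 0 ≤ K) :
    LipschitzOnWith ⟨K, hK0⟩ g (cs a b) := by
  have h1 : LipschitzOnWith ⟨K, hK0⟩ g (os a b) :=
    (convex_os a b).lipschitzOnWith_of_nnnorm_hasFDerivWithin_le
      (fun p hp => (hd p hp).hasFDerivWithinAt) (fun p hp => hK p hp)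
  rw [← closure_os hab] at hc ⊢
  exact h1.closure hc

theorem cl_mem {a b : ℝ} (hab : a ≤ b) (p : ℂ) : cl a b p ∈ cs a b :=
  ⟨le_max_left _ _, max_le hab (min_le_left _ _)⟩

theorem cl_eq {a b : ℝ} {p : ℂ} (hp : p ∈ cs a b) : cl a b p = p := by
  apply Complex.ext
  · show max a (min b p.re) = p.re
    rw [min_eq_right hp.2, max_eq_right hp.1]
  · rfl

theorem ph_mem {a b : ℝ} (ha : 0 ≤ a) {p : ℂ} (hp : p ∈ cs a b) :
    ph p ∈ {z : ℂ | a ≤ ‖z‖ ∧ ‖z‖ ≤ b} := by
  have : ‖ph p‖ = p.re := norm_pol (ha.trans hp.1) _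
  show a ≤ ‖ph p‖ ∧ ‖ph p‖ ≤ b
  rw [this]
  exact hp

theorem os_sub (a b : ℝ) : os a b ⊆ cs a b := fun _ hp => ⟨hp.1.le, hp.2.le⟩

theorem isCompact_ann (a b : ℝ) : IsCompact {z : ℂ | a ≤ ‖z‖ ∧ ‖z‖ ≤ b} := by
  have h1 : IsClosed {z : ℂ | a ≤ ‖z‖ ∧ ‖z‖ ≤ b} :=
    (isClosed_le continuous_const continuous_norm).inter
      (isClosed_le continuous_norm continuous_const)
  refine Metric.isCompact_of_isClosed_isBounded h1 ?_
  refine (isBounded_closedBall (x := (0 : ℂ)) (r := b)).subset fun z hz => ?_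
  simpa using hz.2

theorem hasFDerivAt_comp {a b : ℝ} {F F' : ℂ → ℂ} (ha : 0 ≤ a) (hF : Nice a b F F') {p : ℂ}
    (hp : p ∈ os a b) :
    HasFDerivAt (fun q => F (ph q)) ((F' (ph p)) • dph p) p := by
  have hn : ‖ph p‖ = p.re := norm_pol (ha.trans hp.1.le) _
  have h1 := hF.der (ph p) (by rw [hn]; exact hp.1) (by rw [hn]; exact hp.2)
  have h2 := (h1.hasFDerivAt.restrictScalars ℝ).comp p (hasFDerivAt_ph p)
  refine h2.congr_fderiv ?_
  ext h
  simp [mul_comm]

theorem gr_ok : S_GR := by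
  intro a b F F' ha hab hF
  obtain ⟨L, hL⟩ := (isCompact_ann a b).exists_bound_of_continuousOn hF.cont'
  have hb0 : 0 < b := lt_of_le_of_lt ha hab
  have hL0 : 0 ≤ L := by
    have := hL (b : ℂ) (by simp [abs_of_pos hb0, hab.le])
    exact (norm_nonneg _).trans this
  have hpi := Real.pi_pos
  set M : ℝ := 1 + 2 * Real.pi * b with hM
  have hM0 : 0 ≤ M := by positivity
  have l1 : LipschitzOnWith ⟨M, hM0⟩ ph (cs a b) :=
    lip_cs hab ph dph continuous_ph.continuousOn (fun p _ => hasFDerivAt_ph p)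
      (fun p hp => norm_dph_le p (ha.trans hp.1.le) hp.2.le) hM0
  have l2 : LipschitzOnWith ⟨L * M, mul_nonneg hL0 hM0⟩ (fun q => F (ph q)) (cs a b) := by
    refine lip_cs hab _ (fun p => (F' (ph p)) • dph p) ?_
      (fun p hp => hasFDerivAt_comp ha hF hp) (fun p hp => ?_) (mul_nonneg hL0 hM0)
    · exact hF.cont.comp continuous_ph.continuousOn fun p hp => ph_mem ha hp
    · rw [norm_smul]
      exact mul_le_mul (hL _ (ph_mem ha (os_sub a b hp)))
        (norm_dph_le p (ha.trans hp.1.le) hp.2.le) (norm_nonneg _) hL0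
  have c1 : LipschitzOnWith 1 (cl a b) univ := (cl_lip a b).lipschitzOnWith
  have m1 : MapsTo (cl a b) univ (cs a b) := fun p _ => cl_mem hab.le p
  have l3 := lipschitzOnWith_univ.1 (l1.comp c1 m1)
  have l4 := lipschitzOnWith_univ.1 (l2.comp c1 m1)
  set T : (ℂ × ℂ) →L[ℝ] E := ((WithLp.prodContinuousLinearEquiv 2 ℝ ℂ ℂ).symm :
    (ℂ × ℂ) →L[ℝ] E) with hT
  have hTa : ∀ z w : ℂ, T (z, w) = pt z w := fun z w => rfl
  constructor
  · have l5 := T.lipschitz.comp (l3.prodMk l4)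
    exact ⟨_, l5⟩
  · intro p hp
    have hp1 : p ∈ os a b := hp.1
    have e0 : gr a b F =ᶠ[𝓝 p] fun q => T (ph q, F (ph q)) := by
      have : os a b ∈ 𝓝 p := by
        have ho : IsOpen (os a b) :=
          (isOpen_lt continuous_const Complex.continuous_re).inter
            (isOpen_lt Complex.continuous_re continuous_const)
        exact ho.mem_nhds hp1
      filter_upwards [this] with q hq
      show pt (ph (cl a b q)) (F (ph (cl a b q))) = _
      rw [cl_eq (os_sub a b hq), hTa]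
    have h1 : HasFDerivAt (fun q => T (ph q, F (ph q)))
        (T.comp ((dph p).prod ((F' (ph p)) • dph p))) p :=
      T.hasFDerivAt.comp p ((hasFDerivAt_ph p).prodMk (hasFDerivAt_comp ha hF hp1))
    have h2 : fderiv ℝ (gr a b F) p = T.comp ((dph p).prod ((F' (ph p)) • dph p)) := by
      rw [e0.fderiv_eq]
      exact h1.fderiv
    rw [h2]
    constructor
    · show T (dph p 1, (F' (ph p)) • dph p 1) = _
      rw [dph_apply, hTa]
      simp [tv, ph]
    · show T (dph p Complex.I, (F' (ph p)) • dph p Complex.I) = _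
      rw [dph_apply, hTa]
      simp [tv, ph]

end Pool.Agent.Y325.BC
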