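import Pool.Agent.Y817.BC.Stm

/-!
# Project BC: functions of finitely many coordinates are measurable
-/

set_option autoImplicit false

namespace Pool.Agent.Y325.BC.Meas

open Pool.Agent.Y817.BC

theorem t : StmMeas := by
  classical
  intro Z f S hS z
  have hrw : {E | f E = z} = ⋃ x : {x : S → Bool // ∃ E, f E = z ∧
      ∀ p : S, E p.1.1 p.1.2 = x p}, ⋂ p : S, {E : ℕ → G → Bool | E p.1.1 p.1.2 = x.1 p} := by
    ext E
    rw [Set.mem_iUnion]
    constructor
    · intro h
      exact ⟨⟨fun p => E p.1.1 p.1.2, E, h, fun p => rfl⟩, Set.mem_iInter.mpr fun p => rfl⟩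
    · rintro ⟨⟨x, E', hE', hx⟩, h⟩
      rw [Set.mem_iInter] at h
      show f E = z
      rw [← hE']
      apply hS
      intro p hp
      exact (h ⟨p, hp⟩).trans (hx ⟨p, hp⟩).symm
  rw [hrw]
  refine MeasurableSet.iUnion fun x => MeasurableSet.iInter fun p => ?_
  have hm : Measurable fun E : ℕ → G → Bool => E p.1.1 p.1.2 :=
    (measurable_pi_apply p.1.2).comp (measurable_pi_apply p.1.1)
  exact hm (measurableSet_singleton (x.1 p))

end Pool.Agent.Y325.BC.Meas
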