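import Pool.Agent.Y817.BC.Stm

/-!
# Project BC: choice of the parameters
-/

set_option autoImplicit false

namespace Pool.Agent.Y325.BC.Par

open Pool.Agent.Y817.BC

/-- a common period of the places in a ball -/
noncomputable def pr (m : G → ℕ) (n : ℕ) : ℕ :=
  ∏ t ∈ Finset.Icc (fun _ => -(n : ℤ) : G) (fun _ => (n : ℤ)), m t

lemma mem_box {n : ℕ} {t : G} (h : nn t ≤ n) :
    t ∈ Finset.Icc (fun _ => -(n : ℤ) : G) (fun _ => (n : ℤ)) := by
  rw [nn, Finset.sup_le_iff] at h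
  rw [Finset.mem_Icc, Pi.le_def, Pi.le_def]
  constructor
  · intro i
    have := h i (Finset.mem_univ i)
    omega
  · intro i
    have := h i (Finset.mem_univ i)
    omega

lemma dvd_pr (m : G → ℕ) {n : ℕ} {t : G} (h : nn t ≤ n) : m t ∣ pr m n :=
  Finset.dvd_prod_of_mem _ (mem_box h)

lemma pr_pos (m : G → ℕ) (hm : ∀ t, 0 < m t) (n : ℕ) : 0 < pr m n :=
  Finset.prod_pos fun t _ => hm t

/-- the recursion: `R k`, `S k` and the previous period -/
noncomputable def st (m : G → ℕ) : ℕ → ℕ × ℕ × ℕ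
  | 0 => (0, 0, 1)
  | k + 1 =>
    let q := st m k
    let P := 4 * pr m (q.2.1 + 1) * q.2.2
    let ρ := 2 * (q.1 + 10) + 32 * 14 ^ k * P
    (q.1 + ρ, q.2.1 + (P + ρ), P)

/-- the parameters -/
noncomputable def pp (m : G → ℕ) : Pool.Agent.Y817.BC.Par where
  I k := (st m k).1 + 10
  P k := 4 * pr m ((st m k).2.1 + 1) * (st m k).2.2
  ρ k := 2 * ((st m k).1 + 10) + 32 * 14 ^ k * (4 * pr m ((st m k).2.1 + 1) * (st m k).2.2)

lemma R_eq (m : G → ℕ) (k : ℕ) : (pp m).R k = (st m k).1 := by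
  induction k with
  | zero => rfl
  | succ k ih =>
    rw [Pool.Agent.Y817.BC.Par.R, Finset.sum_range_succ]
    rw [Pool.Agent.Y817.BC.Par.R] at ih
    rw [ih]
    rfl

lemma S_eq (m : G → ℕ) (k : ℕ) : (pp m).S k = (st m k).2.1 := by
  induction k with
  | zero => rfl
  | succ k ih =>
    rw [Pool.Agent.Y817.BC.Par.S, Finset.sum_range_succ]
    rw [Pool.Agent.Y817.BC.Par.S] at ih
    rw [ih]
    rfl

lemma st_pos (m : G → ℕ) (hm : ∀ t, 0 < m t) (k : ℕ) : 0 < (st m k).2.2 := by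
  induction k with
  | zero => exact Nat.one_pos
  | succ k ih =>
    have h := pr_pos m hm ((st m k).2.1 + 1)
    show 0 < 4 * pr m ((st m k).2.1 + 1) * (st m k).2.2
    positivity

theorem t : StmPar := by
  intro L T hT
  choose m hm hT using hT
  refine ⟨pp m, ?_, ?_, ?_, ?_, ?_, ?_, ?_⟩
  · intro k
    have h := pr_pos m hm ((st m k).2.1 + 1)
    have h2 := st_pos m hm k
    show 0 < 4 * pr m ((st m k).2.1 + 1) * (st m k).2.2
    positivity
  · intro k
    exact Dvd.intro_left _ (rfl : 4 * pr m ((st m (k + 1)).2.1 + 1) * (pp m).P k = (pp m).P (k + 1))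
  · intro k
    exact ⟨pr m ((st m k).2.1 + 1) * (st m k).2.2, by
      show 4 * pr m ((st m k).2.1 + 1) * (st m k).2.2 = _
      ring⟩
  · intro k
    rw [R_eq]
    rfl
  · intro k
    show 2 * ((st m k).1 + 10) ≤ 2 * ((st m k).1 + 10) + _
    omega
  · intro k
    show 32 * 14 ^ k * (4 * pr m ((st m k).2.1 + 1) * (st m k).2.2) ≤
      2 * ((st m k).1 + 10) + 32 * 14 ^ k * (4 * pr m ((st m k).2.1 + 1) * (st m k).2.2)
    omega
  · intro k t ht q
    rw [S_eq] at ht
    have h4 : (pp m).P k / 4 = pr m ((st m k).2.1 + 1) * (st m k).2.2 := by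
      show 4 * pr m ((st m k).2.1 + 1) * (st m k).2.2 / 4 = _
      rw [mul_assoc]
      exact Nat.mul_div_cancel_left _ (by norm_num)
    rw [h4]
    obtain ⟨b, hb⟩ := dvd_pr m ht
    rw [hb]
    have h5 : (((m t * b * (st m k).2.2 : ℕ) : ℤ)) • q =
        ((m t : ℕ) : ℤ) • (((b * (st m k).2.2 : ℕ) : ℤ) • q) := by
      rw [smul_smul]
      congr 1
      push_cast
      ring
    rw [h5, hT]

end Pool.Agent.Y325.BC.Par
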