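import Pool.Agent.Y817.BC.Stm

/-!
# Project BC: the slope after an insertion
-/

set_option autoImplicit false

namespace Pool.Agent.Y325.BC.Slope

open Pool.Agent.Y817.BC

lemma nn_le {v : G} {n : ℕ} : nn v ≤ n ↔ ∀ i, (v i).natAbs ≤ n := by
  rw [nn, Finset.sup_le_iff]
  simp

lemma le_nn (v : G) (i : Fin 3) : (v i).natAbs ≤ nn v := (nn_le.mp le_rfl) i

lemma nn_add_le (v w : G) : nn (v + w) ≤ nn v + nn w := by
  rw [nn_le]
  intro i
  have h1 := le_nn v i
  have h2 := le_nn w i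
  have h3 : ((v + w) i).natAbs ≤ (v i).natAbs + (w i).natAbs := Int.natAbs_add_le _ _
  omega

lemma nn_neg (v : G) : nn (-v) = nn v := by
  apply le_antisymm
  · rw [nn_le]
    intro i
    have := le_nn v i
    simpa using this
  · rw [nn_le]
    intro i
    have := le_nn (-v) i
    simpa using this

lemma nn_e (i : Fin 3) : nn (e i) ≤ 1 := by
  rw [nn_le]
  intro j
  by_cases h : j = i
  · subst h
    simp [e]
  · simp [e, h]

lemma axis_nat {w : G → Fin 3 → ℝ} {s : ℝ} (hw : Pool.Agent.Y817.BC.Slope s w) (x : G) (i j : Fin 3)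
    (n : ℕ) : |w (x + (n : ℤ) • e i) j - w x j| ≤ s * n := by
  induction n with
  | zero => simp
  | succ n ih =>
    have h1 := hw (x + (n : ℤ) • e i) i j
    have h2 : x + ((n + 1 : ℕ) : ℤ) • e i = x + (n : ℤ) • e i + e i := by
      push_cast
      rw [add_smul, one_smul, add_assoc]
    rw [h2]
    have h3 := abs_sub_le (w (x + (n : ℤ) • e i + e i) j) (w (x + (n : ℤ) • e i) j) (w x j)
    push_cast
    linarith

lemma axis {w : G → Fin 3 → ℝ} {s : ℝ} (hw : Pool.Agent.Y817.BC.Slope s w) (x : G) (i j : Fin 3)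
    (a : ℤ) : |w (x + a • e i) j - w x j| ≤ s * a.natAbs := by
  rcases Int.natAbs_eq a with h | h
  · rw [h]
    simp only [Int.natAbs_natCast]
    exact axis_nat hw x i j a.natAbs
  · have h1 := axis_nat hw (x + a • e i) i j a.natAbs
    have h2 : x + a • e i + (a.natAbs : ℤ) • e i = x := by
      rw [add_assoc, ← add_smul]
      have : a + (a.natAbs : ℤ) = 0 := by omega
      rw [this, zero_smul, add_zero]
    rw [h2] at h1
    rw [abs_sub_comm]
    exact h1

lemma walk {w : G → Fin 3 → ℝ} {s : ℝ} (hs : 0 ≤ s) (hw : Pool.Agent.Y817.BC.Slope s w) (x c : G)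
    (j : Fin 3) : |w x j - w c j| ≤ 3 * s * nn (x - c) := by
  have h0 := axis hw c 0 j ((x - c) 0)
  have h1 := axis hw (c + (x - c) 0 • e 0) 1 j ((x - c) 1)
  have h2 := axis hw (c + (x - c) 0 • e 0 + (x - c) 1 • e 1) 2 j ((x - c) 2)
  have hx : c + (x - c) 0 • e 0 + (x - c) 1 • e 1 + (x - c) 2 • e 2 = x := by
    funext i
    fin_cases i <;> simp [e]
  rw [hx] at h2
  have k0 : (((x - c) 0).natAbs : ℝ) ≤ nn (x - c) := by exact_mod_cast le_nn (x - c) 0
  have k1 : (((x - c) 1).natAbs : ℝ) ≤ nn (x - c) := by exact_mod_cast le_nn (x - c) 1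
  have k2 : (((x - c) 2).natAbs : ℝ) ≤ nn (x - c) := by exact_mod_cast le_nn (x - c) 2
  have m0 := mul_le_mul_of_nonneg_left k0 hs
  have m1 := mul_le_mul_of_nonneg_left k1 hs
  have m2 := mul_le_mul_of_nonneg_left k2 hs
  have t1 := abs_sub_le (w x j) (w (c + (x - c) 0 • e 0 + (x - c) 1 • e 1) j) (w c j)
  have t2 := abs_sub_le (w (c + (x - c) 0 • e 0 + (x - c) 1 • e 1) j)
    (w (c + (x - c) 0 • e 0) j) (w c j)
  linarith

lemma eta_nonneg (I ρ n : ℕ) : 0 ≤ eta I ρ n := le_max_left _ _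

lemma eta_le (I ρ n : ℕ) : eta I ρ n ≤ 1 := max_le zero_le_one (min_le_left _ _)

lemma eta_zero {I ρ n : ℕ} (h : I < ρ) (hn : ρ ≤ n) : eta I ρ n = 0 := by
  rw [eta]
  apply max_eq_left
  apply (min_le_right _ _).trans
  apply div_nonpos_of_nonpos_of_nonneg
  · have : (ρ : ℝ) ≤ n := by exact_mod_cast hn
    linarith
  · have : (I : ℝ) < ρ := by exact_mod_cast h
    linarith

lemma eta_lip {I ρ : ℕ} (hρ : 0 < ρ) (h : 2 * I ≤ ρ) (n n' : ℕ)
    (h1 : n ≤ n' + 1) (h2 : n' ≤ n + 1) : |eta I ρ n - eta I ρ n'| ≤ 2 / ρ := by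
  have hr : (0 : ℝ) < ρ := by exact_mod_cast hρ
  have hI : 2 * (I : ℝ) ≤ ρ := by exact_mod_cast h
  have k1 : (n : ℝ) ≤ n' + 1 := by exact_mod_cast h1
  have k2 : (n' : ℝ) ≤ n + 1 := by exact_mod_cast h2
  have h3 : |eta I ρ n - eta I ρ n'| ≤
      |((ρ : ℝ) - n) / ((ρ : ℝ) - I) - ((ρ : ℝ) - n') / ((ρ : ℝ) - I)| := by
    rw [eta, eta]
    refine (abs_max_sub_max_le_max _ _ _ _).trans (max_le ?_ ?_)
    · rw [sub_self, abs_zero]
      exact abs_nonneg _
    · refine (abs_min_sub_min_le_max _ _ _ _).trans (max_le ?_ le_rfl)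
      rw [sub_self, abs_zero]
      exact abs_nonneg _
  refine h3.trans ?_
  have hd : (0 : ℝ) < ρ - I := by linarith
  rw [← sub_div, abs_div, abs_of_pos hd, div_le_div_iff₀ hd hr]
  have h5 : |(ρ : ℝ) - n - (ρ - n')| ≤ 1 := by
    rw [abs_le]
    constructor <;> linarith
  nlinarith

lemma tgt_sub {P : ℕ} (hP : 0 < P) (w : G → Fin 3 → ℝ) (c : G) (j : Fin 3) :
    |tgt P w c j - w c j| ≤ P / 2 := by
  have hp : (0 : ℝ) < P := by exact_mod_cast hP
  have h1 := abs_sub_round ((w c j - c j) / P)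
  have h2 : tgt P w c j - w c j =
      -(P * ((w c j - c j) / P - (round ((w c j - c j) / P) : ℤ))) := by
    rw [tgt]
    field_simp
    ring
  rw [h2, abs_neg, abs_mul, abs_of_pos hp]
  nlinarith

/-- the formula near a centre -/
lemma ins_eq {I ρ P : ℕ} (hI : I < ρ) {E : G → Prop} (hE : Disc ρ E) (w : G → Fin 3 → ℝ) {x c : G}
    (hc : E c) (hx : nn (x - c) ≤ ρ + 1) (j : Fin 3) :
    ins I ρ P E w x j = w x j + eta I ρ (nn (x - c)) * (tgt P w c j - w x j) := by
  have key : ∀ c', E c' → nn (x - c') ≤ ρ → c' = c := by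
    intro c' h1 h2
    apply hE _ _ h1 hc
    have h3 : c' - c = -(x - c') + (x - c) := by abel
    rw [h3]
    refine (nn_add_le _ _).trans ?_
    rw [nn_neg]
    omega
  rw [ins]
  split_ifs with h
  · have h1 := key h.choose h.choose_spec.1 h.choose_spec.2
    rw [h1]
  · have h1 : ρ ≤ nn (x - c) := by
      by_contra h2
      exact h ⟨c, hc, by omega⟩
    rw [eta_zero hI h1]
    ring

lemma far {P : ℕ} (hP : 0 < P) {w : G → Fin 3 → ℝ} {s : ℝ} (hs : 0 ≤ s)
    (hw : Pool.Agent.Y817.BC.Slope s w) {ρ : ℕ} {x c : G} (hx : nn (x - c) ≤ ρ) (j : Fin 3) :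
    |tgt P w c j - w x j| ≤ P / 2 + 3 * s * ρ := by
  have h1 := tgt_sub hP w c j
  have h2 := walk hs hw x c j
  have h3 : (nn (x - c) : ℝ) ≤ ρ := by exact_mod_cast hx
  have h4 := abs_sub_le (tgt P w c j) (w c j) (w x j)
  rw [abs_sub_comm (w c j)] at h4
  have h5 := mul_le_mul_of_nonneg_left h3 (by linarith : (0 : ℝ) ≤ 3 * s)
  linarith

lemma bound {s P ρ η η' d t : ℝ} (hρ : 0 < ρ) (h0 : 0 ≤ η)
    (h1 : η ≤ 1) (hη : |η' - η| ≤ 2 / ρ) (hd : |d| ≤ s) (ht : |t| ≤ P / 2 + 3 * s * ρ) :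
    |(1 - η) * d + (η' - η) * t| ≤ 7 * s + P / ρ := by
  have a1 : |(1 - η) * d| ≤ s := by
    rw [abs_mul, abs_of_nonneg (by linarith : (0 : ℝ) ≤ 1 - η)]
    nlinarith [abs_nonneg d]
  have a2 : |(η' - η) * t| ≤ 2 / ρ * (P / 2 + 3 * s * ρ) := by
    rw [abs_mul]
    exact mul_le_mul hη ht (abs_nonneg _) (by positivity)
  have a3 : 2 / ρ * (P / 2 + 3 * s * ρ) = P / ρ + 6 * s := by
    field_simp
    ring
  have a4 := abs_add_le ((1 - η) * d) ((η' - η) * t)
  linarith

theorem t : StmSlope := by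
  intro I ρ P E w s hP hρ hI hE hs hw
  have hI' : I < ρ := by omega
  have hr : (0 : ℝ) < ρ := by exact_mod_cast hρ
  have hp : (0 : ℝ) ≤ P := by positivity
  constructor
  · intro x i j
    have n1 : ∀ c : G, nn (x + e i - c) ≤ nn (x - c) + 1 := by
      intro c
      have h3 : x + e i - c = (x - c) + e i := by abel
      rw [h3]
      have := nn_e i
      have := nn_add_le (x - c) (e i)
      omega
    have n2 : ∀ c : G, nn (x - c) ≤ nn (x + e i - c) + 1 := by
      intro c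
      have h3 : x - c = (x + e i - c) + -(e i) := by abel
      have h4 := nn_e i
      have h5 := nn_add_le (x + e i - c) (-(e i))
      rw [nn_neg, ← h3] at h5
      omega
    by_cases hA : ∃ c, E c ∧ nn (x - c) ≤ ρ
    · obtain ⟨c, hc, hx⟩ := hA
      have m1 := n1 c
      have m2 := n2 c
      rw [ins_eq hI' hE w hc (by omega) j, ins_eq hI' hE w hc (by omega) j]
      have h6 : w (x + e i) j + eta I ρ (nn (x + e i - c)) * (tgt P w c j - w (x + e i) j) -
          (w x j + eta I ρ (nn (x - c)) * (tgt P w c j - w x j)) =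
          (1 - eta I ρ (nn (x + e i - c))) * (w (x + e i) j - w x j) +
            (eta I ρ (nn (x - c)) - eta I ρ (nn (x + e i - c))) * (w x j - tgt P w c j) := by
        ring
      rw [h6]
      have h9 := far hP hs hw hx j
      rw [abs_sub_comm] at h9
      exact bound hr (eta_nonneg _ _ _) (eta_le _ _ _) (eta_lip hρ hI _ _ m2 m1)
        (hw x i j) h9
    · by_cases hB : ∃ c, E c ∧ nn (x + e i - c) ≤ ρ
      · obtain ⟨c, hc, hx⟩ := hB
        have m1 := n1 c
        have m2 := n2 c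
        rw [ins_eq hI' hE w hc (by omega) j, ins_eq hI' hE w hc (by omega) j]
        have h6 : w (x + e i) j + eta I ρ (nn (x + e i - c)) * (tgt P w c j - w (x + e i) j) -
            (w x j + eta I ρ (nn (x - c)) * (tgt P w c j - w x j)) =
            (1 - eta I ρ (nn (x - c))) * (w (x + e i) j - w x j) +
              (eta I ρ (nn (x + e i - c)) - eta I ρ (nn (x - c))) *
                (tgt P w c j - w (x + e i) j) := by
          ring
        rw [h6]
        exact bound hr (eta_nonneg _ _ _) (eta_le _ _ _) (eta_lip hρ hI _ _ m1 m2)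
          (hw x i j) (far hP hs hw hx j)
      · rw [ins, ins, dif_neg hA, dif_neg hB]
        have h1 := hw x i j
        have h2 : (0 : ℝ) ≤ P / ρ := by positivity
        linarith
  · intro x j
    by_cases hA : ∃ c, E c ∧ nn (x - c) ≤ ρ
    · obtain ⟨c, hc, hx⟩ := hA
      rw [ins_eq hI' hE w hc (by omega) j]
      have h1 := far hP hs hw hx j
      have h2 := eta_nonneg I ρ (nn (x - c))
      have h3 := eta_le I ρ (nn (x - c))
      rw [add_sub_cancel_left, abs_mul, abs_of_nonneg h2]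
      nlinarith [abs_nonneg (tgt P w c j - w x j)]
    · rw [ins, dif_neg hA, sub_self, abs_zero]
      positivity

end Pool.Agent.Y325.BC.Slope
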